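import Mathlib
import Pool.Agent.Lib.MP_9f1eae_lc.Defs
import Pool.Agent.Lib.MP_9f1eae_lc.LD.Defs
import Pool.Agent.Lib.MP_9f1eae_lc.LE.Main

open Pool.Agent.Lib.MP_9f1eae_lc Pool.Agent.Lib.MP_9f1eae_lc.LD

theorem Pool.Agent.Results.MP_9f1eae_lc.Ladder.result : List.TFAE [
    ∀ (add mul : ℕ → ℕ → ℕ) (e : ℕ ≃ MvPolynomial ℕ ℚ), Computable₂ add → Computable₂ mul →
      (∀ i j, e (add i j) = e i + e j) → (∀ i j, e (mul i j) = e i * e j) →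
      ∃ B : Set ℕ, IsArith B ∧ AlgebraicIndependent ℚ (fun b : B => e b) ∧
        Algebra.adjoin ℚ (e '' B) = ⊤,
    ∃ n, ∀ (add mul : ℕ → ℕ → ℕ) (e : ℕ ≃ MvPolynomial ℕ ℚ), Computable₂ add → Computable₂ mul →
      (∀ i j, e (add i j) = e i + e j) → (∀ i j, e (mul i j) = e i * e j) →
      ∃ B : Set ℕ, (Sg n (fun x => x ∈ B) ∧ Sg n fun x => x ∉ B) ∧
        AlgebraicIndependent ℚ (fun b : B => e b) ∧ Algebra.adjoin ℚ (e '' B) = ⊤,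
    ∀ (add mul : ℕ → ℕ → ℕ) (e : ℕ ≃ MvPolynomial ℕ ℚ), Computable₂ add → Computable₂ mul →
      (∀ i j, e (add i j) = e i + e j) → (∀ i j, e (mul i j) = e i * e j) →
      ∃ B Y : Set ℕ, AlgebraicIndependent ℚ (fun b : B => e b) ∧
        Algebra.adjoin ℚ (e '' B) = ⊤ ∧ IsArith Y ∧ ¬ TuringReducible (chi Y) (chi B),
    ∃ n, ∀ (a c : ℕ) (p : Fin a → MvPolynomial (Fin c) ℚ), Lad n p → Lad (n + 1) p,
    ∃ n, ∀ (a c : ℕ) (p : Fin a → MvPolynomial (Fin c) ℚ), Lad n p →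
      ∃ S : Set (MvPolynomial ℕ ℚ), AlgebraicIndependent ℚ ((↑) : S → MvPolynomial ℕ ℚ) ∧
        Algebra.adjoin ℚ S = ⊤ ∧ ∀ i, MvPolynomial.rename Fin.val (p i) ∈ S] :=
  LE.tfae
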