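import Mathlib
import Pool.Agent.Lib.MP_9f1eae_lc.Defs
import Pool.Agent.Lib.MP_9f1eae_lc.Main

open Pool.Agent.Lib.MP_9f1eae_lc

theorem Pool.Agent.Results.MP_9f1eae_lc.DoubleJump.result :
    ∃ (add mul : ℕ → ℕ → ℕ) (e : ℕ ≃ MvPolynomial ℕ ℚ),
      Computable₂ add ∧ Computable₂ mul ∧
      (∀ i j, e (add i j) = e i + e j) ∧ (∀ i j, e (mul i j) = e i * e j) ∧
      ∀ B : Set ℕ, AlgebraicIndependent ℚ (fun b : B => e b) →
        Algebra.adjoin ℚ (e '' B) = ⊤ →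
        ¬ IsSigma2 B ∧ ∀ Y, IsPi2 Y → TuringReducible (chi Y) (chi B) :=
  main
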