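import Mathlib
import Pool.Agent.Lib.MP_9f1eae_lc.Defs
import Pool.Agent.Lib.MP_9f1eae_lc.SoftDefs
import Pool.Agent.Lib.MP_9f1eae_lc.SoftMain

open Pool.Agent.Lib.MP_9f1eae_lc

theorem Pool.Agent.Results.MP_9f1eae_lc.SoftBasis.result
    (H : ∀ (n : ℕ) (b : Fin n → MvPolynomial ℕ ℚ), Soft b →
      ∃ ψ : MvPolynomial ℕ ℚ ≃ₐ[ℚ] MvPolynomial ℕ ℚ, ∀ j : Fin n, ψ (MvPolynomial.X j) = b j)
    (add mul : ℕ → ℕ → ℕ) (e : ℕ ≃ MvPolynomial ℕ ℚ) (ca : Computable₂ add) (cm : Computable₂ mul)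
    (hadd : ∀ i j, e (add i j) = e i + e j) (hmul : ∀ i j, e (mul i j) = e i * e j) :
    ∃ B : Set ℕ, IsPi2 B ∧ AlgebraicIndependent ℚ (fun b : B => e b) ∧
      Algebra.adjoin ℚ (e '' B) = ⊤ :=
  soft_main H add mul e ca cm hadd hmul
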